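import Mathlib
import Pool.Agent.H371.SICF.Fix

/-!
# The displacement operators commuting with a Clifford symmetry of a Weyl–Heisenberg SIC fiducial

Let `ψ` be a Weyl–Heisenberg SIC fiducial in dimension `d` and `U` a Clifford unitary, not a scalar,
which has `ψ` as an eigenvector. Let `M` be the group of the pairs `(a, b)` modulo `d` such that `U`
commutes with `X ^ a Z ^ b` up to a scalar, that is, the group of vectors fixed by the symplectic
matrix `F` of `U`. We show that `M` has at most `(√(d + 1) + 1) ^ 2` elements and, if `d ≠ 3`, that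
none of them has order `d`, so that `F` is not conjugate to a shear. There is no assumption on the
order of `U`. In dimension `3` the vector `(0, 1, -1) / √2` with `U = diag (1, ω, ω)` shows that the
assumption `d ≠ 3` is needed.

Idea of the proof. (1) As the overlaps of `ψ` do not vanish, `U` commutes exactly with the operators
in `M`, and all the vectors `X ^ a Z ^ b ψ`, `(a, b)` in `M`, are in one eigenspace of `U`. The
absolute values of the entries of their Gram matrix are known, so that the eigenspace has dimension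
at least `|M| (d + 1) / (d + |M|)`. On the other hand `|tr U| ^ 2 ≤ |M|`, as `|tr (D U)|` is constant
on the displacement operators `D` that belong to the image of `F - 1`. The two bounds give
`(√|M| - 1) ^ 2 ≤ d + 1` unless `U` is a scalar.
(2) If `M` has an element of order `d` then, after a change of the basis by a Clifford unitary, we may
assume that it is `(0, 1)`. Then `U` is diagonal, with quadratic phases, and the support of `ψ` is in
a level set `L` of these phases. Let `K` be the subgroup of the shifts which do not change the phases,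
with `g` elements. The sums of `|ψ j| ^ 2` over the cosets of `K` have a known sum of squares, which
gives `|L| ≥ g (d + 1) / (g + 1)`. As `j`, `j + 1` can be both in `L` only for `j` in one coset of
`K`, we have `|L| ≤ (d + g) / 2`. Together this gives `(g - 1) (d - g) ≤ 0`, so that `g = d` and `U`
is a scalar, or `g = 1` and then `∑ |ψ j| ^ 2 |ψ (j + 1)| ^ 2 = 1 / (d + 1)` has one summand only,
which forces `d = 3`.
-/

set_option autoImplicit false

namespace Pool.Agent.Results.MP_1c78a5_mp.CommutingDisplacements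

open Matrix

variable {d : ℕ} [NeZero d]

/-- `ω ^ x` for a residue `x` modulo `d`, where `ω = exp (2 π i / d)` -/
noncomputable def omegaPow (x : ZMod d) : ℂ :=
  Complex.exp (2 * Real.pi * Complex.I * (x.val : ℂ) / (d : ℂ))

/-- the displacement operator `X ^ a Z ^ b`, which maps `|j⟩` to `ω ^ (b j) |j + a⟩` -/
noncomputable def displacement (a b : ZMod d) : Matrix (ZMod d) (ZMod d) ℂ :=
  Matrix.of fun i j => if i = j + a then omegaPow (b * j) else 0

/-- `ψ` is a Weyl–Heisenberg SIC fiducial: a unit vector with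
`|⟨ψ, X ^ a Z ^ b ψ⟩| ^ 2 = 1 / (d + 1)` for all `(a, b) ≠ (0, 0)` -/
def IsFiducial (ψ : ZMod d → ℂ) : Prop :=
  ∑ j, ‖ψ j‖ ^ 2 = 1 ∧ ∀ a b : ZMod d, (a, b) ≠ (0, 0) →
    ‖star ψ ⬝ᵥ (displacement a b *ᵥ ψ)‖ ^ 2 = 1 / ((d : ℝ) + 1)

/-- `U` belongs to the Clifford group: it is unitary and conjugates displacement operators to
displacement operators up to scalars -/
def IsClifford (U : Matrix (ZMod d) (ZMod d) ℂ) : Prop :=
  U ∈ unitaryGroup (ZMod d) ℂ ∧ ∀ a b : ZMod d, ∃ (a' b' : ZMod d) (c : ℂ),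
    U * displacement a b * star U = c • displacement a' b'

/-- `U` is a nontrivial Clifford symmetry of `ψ`: a Clifford unitary, not a scalar, with `ψ` as an
eigenvector -/
def IsSymmetry (ψ : ZMod d → ℂ) (U : Matrix (ZMod d) (ZMod d) ℂ) : Prop :=
  IsClifford U ∧ (∃ l : ℂ, U *ᵥ ψ = l • ψ) ∧ ∀ s : ℂ, U ≠ s • 1

/-- the pairs `(a, b)` such that `U` commutes with `X ^ a Z ^ b` up to a scalar -/
def commuting (U : Matrix (ZMod d) (ZMod d) ℂ) : Set (ZMod d × ZMod d) :=
  {v | ∃ c : ℂ, U * displacement v.1 v.2 = c • (displacement v.1 v.2 * U)}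

theorem omegaPow_eq (x : ZMod d) : omegaPow x = R503.SIC.e x := by
  unfold omegaPow R503.SIC.e
  rw [ZMod.stdAddChar_apply, ZMod.toCircle_apply]

theorem displacement_eq (a b : ZMod d) : displacement a b = R503.SIC.Dm a b := by
  ext i j
  simp only [displacement, R503.SIC.Dm, Matrix.of_apply, omegaPow_eq]

theorem fid_iff (ψ : ZMod d → ℂ) : IsFiducial ψ ↔ R503.SIC.Fid ψ := by
  unfold IsFiducial R503.SIC.Fid
  simp only [displacement_eq, H371.SICF.ov_eq]

theorem clifford {U : Matrix (ZMod d) (ZMod d) ℂ} (hU : IsClifford U) :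
    star U * U = 1 ∧ R503.SIC.Nrm U := by
  have h1 : star U * U = 1 := (Matrix.mem_unitaryGroup_iff').1 hU.1
  refine ⟨h1, fun a b => ?_⟩
  obtain ⟨a', b', c, h⟩ := hU.2 a b
  refine ⟨a', b', c, ?_⟩
  rw [← displacement_eq, ← displacement_eq, ← Matrix.smul_mul, ← h, mul_assoc, h1, mul_one]

theorem commuting_eq (U : Matrix (ZMod d) (ZMod d) ℂ) : commuting U = H371.SICF.Com U := by
  unfold commuting H371.SICF.Com
  simp only [displacement_eq]

theorem card_bound {ψ : ZMod d → ℂ} (hψ : R503.SIC.Fid ψ) {U : Matrix (ZMod d) (ZMod d) ℂ}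
    (hU : star U * U = 1) (hN : R503.SIC.Nrm U) {l : ℂ} (hl : U *ᵥ ψ = l • ψ)
    (hs : ∀ s : ℂ, U ≠ s • 1) :
    (Nat.card (H371.SICF.Com U) : ℝ) ≤ (Real.sqrt ((d : ℝ) + 1) + 1) ^ 2 := by
  obtain ⟨M, hM, htr⟩ := H371.SICF.trace_bound hU hN
  have hset : (M : Set (ZMod d × ZMod d)) = H371.SICF.Com U := Set.ext hM
  have hcard : Nat.card (H371.SICF.Com U) = Nat.card M := by
    rw [← hset]; rfl
  rw [hcard]
  have hg := H371.SICF.gram_bound hψ hU hl M fun v hv => (hM v).1 hv
  have hd : (0 : ℝ) < d := by exact_mod_cast Nat.pos_of_ne_zero (NeZero.ne d)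
  have hM0 : (0 : ℝ) < Nat.card M := by exact_mod_cast Nat.card_pos
  set x : ℝ := Real.sqrt (Nat.card M) with hx
  have hx0 : 0 ≤ x := Real.sqrt_nonneg _
  have hx2 : x ^ 2 = Nat.card M := Real.sq_sqrt hM0.le
  have htx : ‖Matrix.trace U‖ ≤ x := Real.le_sqrt_of_sq_le htr
  have hxd : x < d := by
    by_contra hcon
    push Not at hcon
    have h1 : (d : ℝ) ^ 2 ≤ Nat.card M := by rw [← hx2]; nlinarith
    have h2 : d ^ 2 ≤ Nat.card M := by exact_mod_cast h1
    have h3 : Nat.card (ZMod d × ZMod d) = d ^ 2 := by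
      rw [Nat.card_prod, Nat.card_zmod, sq]
    have h4 : M = ⊤ := by
      apply AddSubgroup.eq_top_of_le_card
      rw [h3]; exact h2
    have h5 : ∀ a b : ZMod d, U * R503.SIC.Dm a b = R503.SIC.Dm a b * U := by
      intro a b
      have h6 : ((a, b) : ZMod d × ZMod d) ∈ M := by rw [h4]; exact AddSubgroup.mem_top _
      exact H371.SICF.exact_comm hψ hU hl ((hM _).1 h6)
    exact hs _ (H371.SICF.comm_scalar (h5 1 0) (h5 0 1))
  have hdg : (0 : ℝ) < (d : ℝ) + Nat.card M := by positivity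
  have h1 : ((d : ℝ) - x) * ((d : ℝ) + x ^ 2) ≤ 2 * (((d : ℝ) - x) * ((d : ℝ) + x)) := by
    have h2 : (d : ℝ) - x ≤
        2 * ((d : ℝ) - ((d : ℝ) + 1) / ((d : ℝ) + Nat.card M) * Nat.card M) := by linarith
    have h3 : 2 * ((d : ℝ) - ((d : ℝ) + 1) / ((d : ℝ) + Nat.card M) * Nat.card M)
        = 2 * ((d : ℝ) ^ 2 - Nat.card M) / ((d : ℝ) + Nat.card M) := by
      field_simp
      ring
    rw [h3, le_div_iff₀ hdg, ← hx2] at h2
    nlinarith
  have h2 : (d : ℝ) + x ^ 2 ≤ 2 * ((d : ℝ) + x) := by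
    have h3 : 0 < (d : ℝ) - x := by linarith
    by_contra hcon
    push Not at hcon
    have h4 := mul_lt_mul_of_pos_left hcon h3
    nlinarith
  have h3 : (x - 1) ^ 2 ≤ (d : ℝ) + 1 := by nlinarith
  have h4 : x - 1 ≤ Real.sqrt ((d : ℝ) + 1) := Real.le_sqrt_of_sq_le h3
  rw [← hx2]
  have h5 : x ≤ Real.sqrt ((d : ℝ) + 1) + 1 := by linarith
  exact pow_le_pow_left₀ hx0 h5 2

/-- **The displacement operators commuting with a Clifford symmetry.** Let `U` be a nontrivial Clifford
symmetry of a Weyl–Heisenberg SIC fiducial `ψ` in dimension `d`. There are at most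
`(√(d + 1) + 1) ^ 2` pairs `(a, b)` modulo `d` such that `U` commutes with `X ^ a Z ^ b` up to a
scalar and, if `d ≠ 3`, none of them has order `d`. -/
theorem result (d : ℕ) [NeZero d] (ψ : ZMod d → ℂ) (hψ : IsFiducial ψ)
    (U : Matrix (ZMod d) (ZMod d) ℂ) (hU : IsSymmetry ψ U) :
    (Nat.card (commuting U) : ℝ) ≤ (Real.sqrt ((d : ℝ) + 1) + 1) ^ 2 ∧
    (d ≠ 3 → ∀ v ∈ commuting U, addOrderOf v ≠ d) := by
  obtain ⟨hC, ⟨l, hl⟩, hs⟩ := hU
  obtain ⟨hU1, hN⟩ := clifford hC
  have hf := (fid_iff ψ).1 hψ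
  rw [commuting_eq]
  refine ⟨card_bound hf hU1 hN hl hs, ?_⟩
  rintro hd3 ⟨x, z⟩ ⟨c, hc⟩ hord
  refine hs l (H371.SICF.main hd3 hf hU1 hN hl (x := x) (z := z) ?_ hc)
  intro k h1 h2
  have h3 : k.val • ((x, z) : ZMod d × ZMod d) = 0 := by
    rw [Prod.smul_mk, nsmul_eq_mul, nsmul_eq_mul, ZMod.natCast_zmod_val, h1, h2]; rfl
  have h4 := addOrderOf_dvd_of_nsmul_eq_zero h3
  rw [hord] at h4
  have h5 : k.val = 0 := Nat.eq_zero_of_dvd_of_lt h4 (ZMod.val_lt k)
  exact (ZMod.val_eq_zero k).1 h5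

end Pool.Agent.Results.MP_1c78a5_mp.CommutingDisplacements
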