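import Mathlib
import Pool.Agent.R848.SICP.Final
import Pool.Agent.helper391_IR.Main

/-!
# Involutive symmetries of Weyl-Heisenberg SIC fiducials in every odd dimension

Let `d` be odd and let `ψ` be a Weyl-Heisenberg SIC fiducial in dimension `d` with a Clifford symmetry
`U` of order two modulo scalars. Then `d + 1 = n ^ 2`, `U` acts on the displacement operators by
`k = n` or `k = - n` modulo `d`, `U` is unique up to scalars if `d ≠ 3`, and the overlaps of `ψ` with
the displacements inverted by `U` are known up to the choice of a self-dual subgroup: after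
recentring and up to the usual phases they all equal `1 / n` (and `k = - n`), or they all equal
`- 1 / n` (and `k = n`), or they equal `- 1 / n` on the nonzero elements of an isotropic subgroup of
order `n + 1` and `1 / n` elsewhere (and `k = n`). No squarefreeness is assumed.

Idea of the proof. Split `d = m D` with `k = -1` modulo `m` and `k = 1` modulo `D`. The overlaps of
`ψ` at the `m ^ 2` displacements inverted by `k` are real; multiplied by `n` they form a function
`G` on `(ℤ/m)^2` with `G(0) = n`, all other values `± 1`, which is an eigenfunction of the symplectic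
Fourier transform with eigenvalue `± m`, and is invariant under units by Galois theory. The sum of
all values gives `n ≤ m + 1`, and `m` divides `(n - 1) (n + 1)`. If all primes dividing `m` divide
`n - 1`, then `n = m + 1`; if all divide `n + 1`, then `n = m - 1`. Suppose that a prime `p` of `m`
divides `n - 1` and a prime `q` of `m` divides `n + 1`. Integrality of the Fourier transform and the
action of `1 + pℤ` on the `p`-primary part show that the value of `G` at a point of order prime to
`p` is congruent modulo `p` to the sum of the values at the `p + 1` translates of this point by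
representatives of the lines of the `p`-torsion; likewise for `q`. So there is a
`(p + 1) × (q + 1)` table of signs whose row sums are known modulo `q`, whose column sums are known
modulo `p`, and whose marginals sum to `n` modulo `p` and `q`. If, say, `p < q`, every row is constant
with at most one exception, so that two columns have no exception, and comparing the sums modulo `p`
shows that `2` is divisible by `p`, a contradiction.
-/

set_option autoImplicit false

namespace Pool.Agent.Results.MP_1c78a5_mp.InvolutionsOddDimension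

open Matrix

variable {d : ℕ} [NeZero d]

/-- `ω ^ x` for a residue `x` modulo `d`, where `ω = exp (2 π i / d)` -/
noncomputable def omegaPow (x : ZMod d) : ℂ :=
  Complex.exp (2 * Real.pi * Complex.I * (x.val : ℂ) / (d : ℂ))

/-- the displacement operator `X ^ a Z ^ b`, which maps `|j⟩` to `ω ^ (b j) |j + a⟩` -/
noncomputable def displacement (a b : ZMod d) : Matrix (ZMod d) (ZMod d) ℂ :=
  Matrix.of fun i j => if i = j + a then omegaPow (b * j) else 0

/-- the overlap `⟨ψ, X ^ a Z ^ b ψ⟩` -/
noncomputable def overlap (ψ : ZMod d → ℂ) (a b : ZMod d) : ℂ :=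
  star ψ ⬝ᵥ (displacement a b *ᵥ ψ)

/-- `ψ` is a Weyl-Heisenberg SIC fiducial: a unit vector with
`|⟨ψ, X ^ a Z ^ b ψ⟩| ^ 2 = 1 / (d + 1)` for all `(a, b) ≠ (0, 0)` -/
def IsFiducial (ψ : ZMod d → ℂ) : Prop :=
  ∑ j, ‖ψ j‖ ^ 2 = 1 ∧ ∀ a b : ZMod d, (a, b) ≠ (0, 0) →
    ‖overlap ψ a b‖ ^ 2 = 1 / ((d : ℝ) + 1)

/-- `U` belongs to the Clifford group: it is unitary and conjugates displacement operators to
displacement operators up to scalars -/
def IsClifford (U : Matrix (ZMod d) (ZMod d) ℂ) : Prop :=
  U ∈ unitaryGroup (ZMod d) ℂ ∧ ∀ a b : ZMod d, ∃ (a' b' : ZMod d) (c : ℂ),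
    U * displacement a b * star U = c • displacement a' b'

/-- `U` is a Clifford symmetry of `ψ` of order two modulo scalars -/
def IsInvolution (ψ : ZMod d → ℂ) (U : Matrix (ZMod d) (ZMod d) ℂ) : Prop :=
  IsClifford U ∧ (∃ l : ℂ, U *ᵥ ψ = l • ψ) ∧ (∃ s : ℂ, U * U = s • 1) ∧ ∀ s : ℂ, U ≠ s • 1

/-- the displacements inverted by `k`: the pairs `(x, z)` with `k x = - x` and `k z = - z` -/
def Inverted (k x z : ZMod d) : Prop := k * x = -x ∧ k * z = -z

theorem omegaPow_eq (x : ZMod d) : omegaPow x = R503.SIC.e x := by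
  unfold omegaPow R503.SIC.e
  rw [ZMod.stdAddChar_apply, ZMod.toCircle_apply]

theorem displacement_eq (a b : ZMod d) : displacement a b = R503.SIC.Dm a b := by
  ext i j
  simp only [displacement, R503.SIC.Dm, Matrix.of_apply, omegaPow_eq]

theorem overlap_eq (ψ : ZMod d → ℂ) (a b : ZMod d) : overlap ψ a b = R503.SIC.ov ψ a b := by
  unfold overlap R503.SIC.ov
  have h1 : ∀ i, (displacement a b *ᵥ ψ) i = omegaPow (b * (i - a)) * ψ (i - a) := by
    intro i
    rw [Matrix.mulVec, dotProduct, Finset.sum_eq_single (i - a)]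
    · simp [displacement]
    · intro j _ hj
      simp only [displacement, Matrix.of_apply]
      rw [if_neg (fun h => hj (by rw [h]; ring)), zero_mul]
    · intro h; exact absurd (Finset.mem_univ _) h
  rw [dotProduct]
  refine Fintype.sum_equiv (Equiv.subRight a) _ _ fun i => ?_
  rw [h1, omegaPow_eq, Pi.star_apply]
  simp

theorem fid_iff (ψ : ZMod d → ℂ) : IsFiducial ψ ↔ R503.SIC.Fid ψ := by
  unfold IsFiducial R503.SIC.Fid
  simp only [overlap_eq]

theorem clifford {U : Matrix (ZMod d) (ZMod d) ℂ} (hU : IsClifford U) :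
    IsUnit U ∧ R503.SIC.Nrm U := by
  have h1 : star U * U = 1 := (Matrix.mem_unitaryGroup_iff').1 hU.1
  have h2 : U * star U = 1 := (Matrix.mem_unitaryGroup_iff).1 hU.1
  refine ⟨⟨⟨U, star U, h2, h1⟩, rfl⟩, fun a b => ?_⟩
  obtain ⟨a', b', c, h⟩ := hU.2 a b
  refine ⟨a', b', c, ?_⟩
  rw [← displacement_eq, ← displacement_eq, ← Matrix.smul_mul, ← h, mul_assoc, h1, mul_one]

/-- **Involutive symmetries in odd dimension.** Let `d` be odd, `ψ` a Weyl-Heisenberg SIC fiducial
and `U` a Clifford symmetry of `ψ` of order two modulo scalars. Then `d + 1 = n ^ 2`, and `U`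
conjugates `X ^ x Z ^ y` to a multiple of `X ^ (k x) Z ^ (k y)` with `k = n` or `k = - n`. If `d ≠ 3`,
every Clifford symmetry of `ψ` of order two modulo scalars is a multiple of `U`. For the nonzero
pairs `(x, z)` with `k x = - x`, `k z = - z` one of the following holds, with fixed `p`, `q`:
(i) `k = - n` and `⟨ψ, X ^ (2 x) Z ^ z ψ⟩ = ω ^ (p x + q z - x z) / n` for all of them;
(ii) `k = n` and `⟨ψ, X ^ (2 x) Z ^ z ψ⟩ = - ω ^ (p x + q z - x z) / n` for all of them;
(iii) `k = n` and the overlap is `- ω ^ (p x + q z - x z) / n` if `(x, z)` lies in `L` and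
`ω ^ (p x + q z - x z) / n` otherwise, where `L` is a subgroup of order `n + 1` of the group of
pairs inverted by `k`, on which the symplectic form vanishes. -/
theorem result (d : ℕ) [NeZero d] (hd : Odd d) (ψ : ZMod d → ℂ) (hψ : IsFiducial ψ)
    (U : Matrix (ZMod d) (ZMod d) ℂ) (hU : IsInvolution ψ U) :
    ∃ (n : ℕ) (k p q : ZMod d), n ^ 2 = d + 1 ∧
      (∀ x y : ZMod d, ∃ s : ℂ, U * displacement x y * star U = s • displacement (k * x) (k * y)) ∧
      (d ≠ 3 → ∀ V : Matrix (ZMod d) (ZMod d) ℂ, IsInvolution ψ V → ∃ r : ℂ, V = r • U) ∧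
      ((k = -n ∧ ∀ x z : ZMod d, Inverted k x z → (x, z) ≠ (0, 0) →
          overlap ψ (2 * x) z = omegaPow (p * x + q * z - x * z) * (1 / n)) ∨
        (k = n ∧ ∀ x z : ZMod d, Inverted k x z → (x, z) ≠ (0, 0) →
          overlap ψ (2 * x) z = omegaPow (p * x + q * z - x * z) * (-1 / n)) ∨
        (k = n ∧ ∃ L : AddSubgroup (ZMod d × ZMod d), Nat.card L = n + 1 ∧
          (∀ v ∈ L, Inverted k v.1 v.2) ∧ (∀ v ∈ L, ∀ w ∈ L, v.1 * w.2 = v.2 * w.1) ∧
          ∀ x z : ZMod d, Inverted k x z → (x, z) ≠ (0, 0) →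
            ((x, z) ∈ L →
              overlap ψ (2 * x) z = omegaPow (p * x + q * z - x * z) * (-1 / n)) ∧
            ((x, z) ∉ L →
              overlap ψ (2 * x) z = omegaPow (p * x + q * z - x * z) * (1 / n)))) := by
  have hf := (fid_iff ψ).1 hψ
  obtain ⟨hC, ⟨l, hl⟩, ⟨s, hs⟩, hns⟩ := hU
  obtain ⟨hunit, hn⟩ := clifford hC
  obtain ⟨k, a, b, c, v, hk1, hsym, hv, hent⟩ :=
    R848.SICP.clifford2 hd hf hunit hn hs hl hns
  obtain ⟨n, p, q, hn1, h1⟩ := helper391_IR.shape' hd hf hsym hk1
  refine ⟨n, k, p, q, hn1, fun x y => ⟨R503.SIC.e (b * x - k * y * a), ?_⟩, ?_, ?_⟩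
  · have h1 := R848.SICP.conj_disp hsym.1 hent x y
    have h2 : U * star U = 1 := (Matrix.mem_unitaryGroup_iff).1 hC.1
    rw [displacement_eq, displacement_eq, h1, Matrix.smul_mul, Matrix.mul_assoc, h2, mul_one]
  · intro hd3 V hV
    obtain ⟨hC', ⟨l', hl'⟩, ⟨s', hs'⟩, hns'⟩ := hV
    obtain ⟨hunit', hn'⟩ := clifford hC'
    obtain ⟨k', a', b', c', v', hk1', hsym', hv', hent'⟩ :=
      R848.SICP.clifford2 hd hf hunit' hn' hs' hl' hns'
    obtain ⟨e1, e2, e3⟩ := helper391_IR.uniq' hd hd3 hf hsym hk1 hsym' hk1'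
    refine ⟨v' / v, ?_⟩
    ext i j
    rw [hent', Matrix.smul_apply, hent, e1, e2, e3, smul_eq_mul]
    by_cases h : i = k * j + a
    · rw [if_pos h, if_pos h, ← mul_assoc, div_mul_cancel₀ _ hv]
    · rw [if_neg h, if_neg h, mul_zero]
  · simp only [overlap_eq, omegaPow_eq]
    rcases h1 with ⟨e1, e2⟩ | ⟨e1, e2⟩ | ⟨e1, L, e3, e4, e5, e6⟩
    · exact Or.inl ⟨e1, fun x z hxz hne => e2 x z hxz.1 hxz.2 hne⟩
    · exact Or.inr (Or.inl ⟨e1, fun x z hxz hne => e2 x z hxz.1 hxz.2 hne⟩)
    · exact Or.inr (Or.inr ⟨e1, L, e3, e4, e5, fun x z hxz hne => e6 x z hxz.1 hxz.2 hne⟩)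

end Pool.Agent.Results.MP_1c78a5_mp.InvolutionsOddDimension
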