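import Pool.Agent.H207.RU.Phase

/-!
# The overlap phases of Weyl-Heisenberg SIC fiducials in prime dimensions and roots of unity

For a Weyl-Heisenberg SIC fiducial `ψ` in dimension `p` the normalised overlaps
`√(p + 1) ⟨ψ, X ^ a Z ^ b ψ⟩`, `(a, b) ≠ 0`, have absolute value one. In dimension `3` there is a
fiducial for which all of them are sixth roots of unity. We show that in prime dimensions `p ≥ 5`
there are always at least `p - 1` normalised overlaps which are not roots of unity, and that they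
fill a line through the origin or are at least `2 p - 2` in number.

Idea of the proof. Since `p + 1` is not a square, there are places `B`, `B'` over `p` at which
`s = √(p + 1)` is congruent to `1` and to `- 1`. Modulo a place over `p` the overlaps, divided by a
largest one, are invariant under a nonzero translation; if there are few exceptions this shows that
all overlaps are units at the place, so that they are themselves invariant. Hence the normalised
overlaps are congruent to `1` modulo `B` on a line `ℤ v`, congruent to `- 1` modulo `B'` on a line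
`ℤ v'`, and invariant modulo `B` under `v` and modulo `B'` under `v'`. A root of unity which is
congruent to `1` modulo a place over `p` has order a power of `p`, so that roots of unity at `i v`,
`j v'` and `i v + j v'` contradict each other.
-/

set_option autoImplicit false

namespace Pool.Agent.Results.MP_1c78a5_mp.NoRootOfUnityPhases

open ComplexConjugate NumberField Pool.Agent.H207.RU

variable {p : ℕ} [Fact p.Prime]

/-- the set of the `g ≠ 0` for which the normalised overlap is not special -/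
def exceptional (ψ : EuclideanSpace ℂ (ZMod p)) : Set (ZMod p × ZMod p) :=
  {g | g ≠ 0 ∧ ¬ Special (phase ψ g)}

theorem dichotomy (hp : 5 ≤ p) (ψ : EuclideanSpace ℂ (ZMod p)) (hψ : IsFiducial ψ)
    (hfew : (exceptional ψ).ncard < 2 * p - 2) :
    ∃ v : ZMod p × ZMod p, v ≠ 0 ∧ ∀ j : ZMod p, j ≠ 0 → j • v ∈ exceptional ψ := by
  classical
  by_contra hcon
  push Not at hcon
  set E := (exceptional ψ).toFinset with hE
  refine H207.RU.main hp (ZMod.isPrimitive_stdAddChar p) (sic ψ hψ) (sqs p) E ?_ ?_ ?_ ?_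
  · rwa [Set.ncard_eq_toFinset_card' (exceptional ψ)] at hfew
  · intro g hg
    obtain ⟨h1, h2⟩ := Set.mem_toFinset.mp hg
    exact Set.mem_toFinset.mpr ⟨neg_ne_zero.mpr h1, fun h3 => h2 (special_neg ψ hψ g h1 h3)⟩
  · intro v hv
    obtain ⟨j, hj0, hj⟩ := hcon v hv
    exact ⟨j, hj0, fun h => hj (Set.mem_toFinset.mp h)⟩
  · intro a b hab h0
    have hne : ((a, b) : ZMod p × ZMod p) ≠ 0 := fun h =>
      h0 ⟨congrArg Prod.fst h, congrArg Prod.snd h⟩
    have h1 : Special (phase ψ (a, b)) := by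
      by_contra h1
      exact hab (Set.mem_toFinset.mpr ⟨hne, h1⟩)
    have h2 := special_root (norm_phase ψ hψ _ hne) h1
    rwa [phase_eq] at h2

theorem many (hp : 5 ≤ p) (ψ : EuclideanSpace ℂ (ZMod p)) (hψ : IsFiducial ψ) :
    p - 1 ≤ (exceptional ψ).ncard := by
  classical
  by_contra hcon
  push Not at hcon
  obtain ⟨v, hv0, hv⟩ := dichotomy hp ψ hψ (by omega)
  rw [Set.ncard_eq_toFinset_card' (exceptional ψ)] at hcon
  have h1 : ((Finset.univ : Finset (ZMod p)).erase 0).card ≤ (exceptional ψ).toFinset.card := by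
    apply Finset.card_le_card_of_injOn (fun i : ZMod p => i • v)
      (fun i hi => Set.mem_toFinset.mpr (hv i (Finset.ne_of_mem_erase hi)))
    intro i _ j _ hij
    have h2 : (i - j) • v = 0 := by
      rw [sub_smul, sub_eq_zero]
      exact hij
    exact sub_eq_zero.mp ((smul_eq_zero.mp h2).resolve_right hv0)
  rw [Finset.card_erase_of_mem (Finset.mem_univ _), Finset.card_univ, ZMod.card] at h1
  omega

/-- the fiducial `(0, 1, -1) / √2` of dimension three -/
noncomputable def hesse : EuclideanSpace ℂ (ZMod 3) :=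
  WithLp.toLp 2 (fun k => (((![0, 1, -1] : Fin 3 → ℝ) k / √2 : ℝ) : ℂ))

theorem hesse_overlap (g : ZMod 3 × ZMod 3) (hg : g ≠ 0) : ∃ t : ZMod 3,
    inner ℂ hesse (disp g hesse) = -(1 / 2) * ZMod.stdAddChar t := by
  have h2 : (√2 : ℝ) * √2 = 2 := Real.mul_self_sqrt (by norm_num)
  have h3 : ∀ f : ZMod 3 → ℂ, ∑ k, f k = f 0 + f 1 + f 2 := fun f => Fin.sum_univ_three f
  set r : ZMod 3 → ℝ := (![0, 1, -1] : Fin 3 → ℝ) with hr
  have e0 : r 0 = 0 := rfl
  have e1 : r 1 = 1 := rfl
  have e2 : r 2 = -1 := rfl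
  have hsum : inner ℂ hesse (disp g hesse) = ∑ x : ZMod 3, ((r x * r (x + g.1) / 2 : ℝ) : ℂ) *
      ZMod.stdAddChar (g.2 * x) := by
    rw [inner_disp, H207.WH.ov]
    apply Finset.sum_congr rfl
    intro x _
    congr 1
    simp only [hesse, Complex.conj_ofReal]
    rw [← Complex.ofReal_mul, div_mul_div_comm, h2]
  obtain ⟨a, b⟩ := g
  rw [hsum, h3]
  have c0 : ∀ a : ZMod 3, a = 0 ∨ a = 1 ∨ a = 2 := by decide
  have c11 : (1 : ZMod 3) + 1 = 2 := by decide
  have c12 : (1 : ZMod 3) + 2 = 0 := by decide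
  have c21 : (2 : ZMod 3) + 1 = 0 := by decide
  have c22 : (2 : ZMod 3) + 2 = 1 := by decide
  simp only
  rcases c0 a with rfl | rfl | rfl
  · refine ⟨0, ?_⟩
    have hb : b ≠ 0 := fun h => hg (by rw [h]; rfl)
    have hs : (1 : ℂ) + ZMod.stdAddChar (b * 1) + ZMod.stdAddChar (b * 2) = 0 := by
      have h4 := H207.WH.sum_chi (ZMod.isPrimitive_stdAddChar 3) b
      rw [if_neg hb, h3, zero_mul, AddChar.map_zero_eq_one] at h4
      rw [mul_comm b 1, mul_comm b 2]
      exact h4
    rw [add_zero, add_zero, add_zero, e0, e1, e2, AddChar.map_zero_eq_one]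
    push_cast
    linear_combination (1 / 2 : ℂ) * hs
  · refine ⟨b * 1, ?_⟩
    rw [zero_add, c11, c21, e0, e1, e2]
    push_cast
    ring
  · refine ⟨b * 2, ?_⟩
    rw [zero_add, c12, c22, e0, e1, e2]
    push_cast
    ring

theorem dimension_three : ∃ ψ : EuclideanSpace ℂ (ZMod 3), IsFiducial ψ ∧
    ∀ g : ZMod 3 × ZMod 3, g ≠ 0 → phase ψ g ^ 6 = 1 := by
  have h2 : √(2 : ℝ) ^ 2 = 2 := Real.sq_sqrt (by norm_num)
  have h4 : √(((3 : ℕ) : ℝ) + 1) = 2 := by
    rw [show ((3 : ℕ) : ℝ) + 1 = 2 ^ 2 by norm_num]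
    exact Real.sqrt_sq (by norm_num)
  refine ⟨hesse, ⟨?_, fun g hg => ?_⟩, fun g hg => ?_⟩
  · have h1 : ‖hesse‖ ^ 2 = 1 := by
      rw [EuclideanSpace.norm_sq_eq]
      have h3 : ∀ f : ZMod 3 → ℝ, ∑ k, f k = f 0 + f 1 + f 2 := fun f => Fin.sum_univ_three f
      rw [h3]
      simp only [hesse, Complex.norm_real, Real.norm_eq_abs, sq_abs]
      have e0 : (![0, 1, -1] : Fin 3 → ℝ) (0 : ZMod 3) = 0 := rfl
      have e1 : (![0, 1, -1] : Fin 3 → ℝ) (1 : ZMod 3) = 1 := rfl
      have e2 : (![0, 1, -1] : Fin 3 → ℝ) (2 : ZMod 3) = -1 := rfl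
      rw [e0, e1, e2, div_pow, div_pow, div_pow, h2]
      norm_num
    exact (pow_eq_one_iff_of_nonneg (norm_nonneg _) two_ne_zero).mp h1
  · obtain ⟨t, ht⟩ := hesse_overlap g hg
    rw [ht, norm_mul, H207.WH.norm_char]
    norm_num
  · obtain ⟨t, ht⟩ := hesse_overlap g hg
    rw [phase, ht, h4]
    have h5 : (ZMod.stdAddChar t : ℂ) ^ 3 = 1 := H207.WH.chi_pow _ _
    push_cast
    linear_combination ((ZMod.stdAddChar t : ℂ) ^ 3 + 1) * h5

/-- **Overlap phases and roots of unity.** Let `p ≥ 5` be prime and let `ψ` be a Weyl-Heisenberg SIC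
fiducial of dimension `p`. Then at least `p - 1` of the `p ^ 2 - 1` normalised overlaps
`√(p + 1) ⟨ψ, X ^ a Z ^ b ψ⟩` are neither roots of unity nor algebraic integers of CM fields. If
these exceptional `(a, b)` are fewer than `2 p - 2`, then they contain all nonzero points of a line
through the origin. In dimension three there is a fiducial for which all normalised overlaps are
sixth roots of unity. -/
theorem result :
    (∀ (p : ℕ) [Fact p.Prime], 5 ≤ p → ∀ ψ : EuclideanSpace ℂ (ZMod p), IsFiducial ψ →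
      p - 1 ≤ (exceptional ψ).ncard ∧
      ((exceptional ψ).ncard < 2 * p - 2 →
        ∃ v : ZMod p × ZMod p, v ≠ 0 ∧ ∀ j : ZMod p, j ≠ 0 → j • v ∈ exceptional ψ)) ∧
    ∃ ψ : EuclideanSpace ℂ (ZMod 3), IsFiducial ψ ∧
      ∀ g : ZMod 3 × ZMod 3, g ≠ 0 → phase ψ g ^ 6 = 1 :=
  ⟨fun _ _ hp ψ hψ => ⟨many hp ψ hψ, dichotomy hp ψ hψ⟩, dimension_three⟩

end Pool.Agent.Results.MP_1c78a5_mp.NoRootOfUnityPhases
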