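import Pool.Agent.H207.RU.Phase

/-!
# The overlap phases of symmetric Weyl-Heisenberg SIC fiducials in prime dimensions

Let `ψ` be a Weyl-Heisenberg SIC fiducial in a prime dimension `p ≥ 5` whose symmetries have no
common eigenvector, for instance a fiducial with Zauner's symmetry if `p ≡ 2 mod 3`. We show that
none of its normalised overlaps `√(p + 1) ⟨ψ, X ^ a Z ^ b ψ⟩`, `(a, b) ≠ 0`, is a root of unity or an
algebraic integer of a CM field, that each of them generates a field which contains `√(p + 1)`, and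
that the same holds for the products of an odd number of normalised overlaps. Products of an even number
of them can be roots of unity, but only of order a power of `p`.

Idea of the proof. All overlaps are congruent to `1` modulo every place over `p`, because modulo the
place they are invariant under a nonzero translation and, up to `p`-th roots of unity, under the
symmetries. So a product of an odd number of normalised overlaps is congruent to `s = √(p + 1)`
modulo every place over `p`. There are places at which `s` is congruent to `1` and to `- 1`, and a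
root of unity congruent to `1` modulo a place over `p` has order a power of `p`. If `s` does not lie
in the field generated by such a product, then the restriction to this field of a place at which `s`
is congruent to `1` extends to a place at which `s` is congruent to `- 1`, which is absurd.
-/

set_option autoImplicit false

namespace Pool.Agent.Results.MP_1c78a5_mp.SymmetricPhases

open ComplexConjugate NumberField Pool.Agent.H207.RU

variable {p : ℕ} [Fact p.Prime]

/-- `ψ` is an eigenvector of a unitary transformation `U` with `U D_g U⁻¹ = c_g D_(M g)` -/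
def HasSymmetry (ψ : EuclideanSpace ℂ (ZMod p))
    (M : (ZMod p × ZMod p) ≃ₗ[ZMod p] (ZMod p × ZMod p)) : Prop :=
  ∃ U : EuclideanSpace ℂ (ZMod p) ≃ₗᵢ[ℂ] EuclideanSpace ℂ (ZMod p),
    (∃ c : ℂ, U ψ = c • ψ) ∧ ∀ g, ∃ c : ℂ, ∀ x, U (disp g x) = c • disp (M g) (U x)

/-- `M` permutes the normalised overlaps of `ψ` up to `p`-th roots of unity -/
def PermutesPhases (ψ : EuclideanSpace ℂ (ZMod p))
    (M : (ZMod p × ZMod p) ≃ₗ[ZMod p] (ZMod p × ZMod p)) : Prop :=
  ∀ g, ∃ c : ℂ, c ^ p = 1 ∧ phase ψ (M g) = c * phase ψ g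

/-- Zauner's transformation `(a, b) ↦ (-b, a - b)` of order three -/
def zauner (p : ℕ) [Fact p.Prime] : (ZMod p × ZMod p) ≃ₗ[ZMod p] (ZMod p × ZMod p) where
  toFun g := (-g.2, g.1 - g.2)
  invFun g := (g.2 - g.1, -g.1)
  map_add' g h := by ext <;> simp <;> ring
  map_smul' c g := by ext <;> simp [mul_sub]
  left_inv g := by ext <;> simp
  right_inv g := by ext <;> simp

/-- The products of normalised overlaps at indices different from zero (which may be repeated): a
product of an odd number of them is not special, and every field which contains it contains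
`√(p + 1)`; a product of an even number of them which is special is a root of unity of order a power
of `p`. -/
def PhaseProducts (ψ : EuclideanSpace ℂ (ZMod p)) : Prop :=
  ∀ m : Multiset (ZMod p × ZMod p), 0 ∉ m →
    (Odd (Multiset.card m) → ¬ Special (m.map (phase ψ)).prod ∧
      ∀ F : Subfield ℂ, (m.map (phase ψ)).prod ∈ F → ((√((p : ℝ) + 1) : ℝ) : ℂ) ∈ F) ∧
    (Even (Multiset.card m) → Special (m.map (phase ψ)).prod →
      ∃ k : ℕ, (m.map (phase ψ)).prod ^ p ^ k = 1)

theorem permutes (hp : p ≠ 2) (ψ : EuclideanSpace ℂ (ZMod p)) (hψ : ‖ψ‖ = 1)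
    (M : (ZMod p × ZMod p) ≃ₗ[ZMod p] (ZMod p × ZMod p)) (hM : HasSymmetry ψ M) :
    PermutesPhases ψ M := by
  obtain ⟨U, hU, hUM⟩ := hM
  intro g
  have hold : ∀ g, ∃ c : ℂ, ∀ x, U (H207.WH.disp g x)
      = c • H207.WH.disp (-(M (-g.1, g.2)).1, (M (-g.1, g.2)).2) (U x) := by
    intro g
    obtain ⟨c, hc⟩ := hUM (-g.1, g.2)
    refine ⟨(ZMod.stdAddChar (-(g.1 * g.2)) : ℂ) * (c *
      ZMod.stdAddChar (-((M (-g.1, g.2)).1 * (M (-g.1, g.2)).2))), fun x => ?_⟩
    rw [old_disp, map_smul, hc, disp_old (M (-g.1, g.2)), smul_smul, smul_smul, mul_assoc]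
  obtain ⟨j, hj⟩ := H207.WH.clifford hp ψ hψ
    (fun g => (-(M (-g.1, g.2)).1, (M (-g.1, g.2)).2)) U hU hold (-g.1, g.2)
  simp only [neg_neg, Prod.mk.eta] at hj
  refine ⟨ZMod.stdAddChar (-((M g).1 * (M g).2)) * ZMod.stdAddChar j *
    ZMod.stdAddChar (g.1 * g.2), ?_, ?_⟩
  · rw [mul_pow, mul_pow, H207.WH.chi_pow, H207.WH.chi_pow, H207.WH.chi_pow, one_mul, one_mul]
  · rw [phase, phase, disp_old (M g), inner_smul_right, hj, disp_old g, inner_smul_right]
    have e : (ZMod.stdAddChar (g.1 * g.2) : ℂ) * ZMod.stdAddChar (-(g.1 * g.2)) = 1 := by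
      rw [← AddChar.map_add_eq_mul, add_neg_cancel, AddChar.map_zero_eq_one]
    linear_combination (-(√((p : ℝ) + 1) : ℂ) * ZMod.stdAddChar (-((M g).1 * (M g).2)) *
      ZMod.stdAddChar j * inner ℂ ψ (H207.WH.disp (-g.1, g.2) ψ)) * e

theorem products (hp : 5 ≤ p) (ψ : EuclideanSpace ℂ (ZMod p)) (hψ : IsFiducial ψ)
    (h : ∀ v : ZMod p × ZMod p, v ≠ 0 → ∃ M, PermutesPhases ψ M ∧ ∀ c : ZMod p, M v ≠ c • v) :
    PhaseProducts ψ := by
  have hp2 : p ≠ 2 := by omega
  have hs0 : ((√((p : ℝ) + 1) : ℝ) : ℂ) ≠ 0 := by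
    intro h0
    have h1 := sqs p
    rw [h0, zero_pow two_ne_zero] at h1
    exact absurd h1.symm (by exact_mod_cast Nat.succ_ne_zero p)
  have key : ∀ B : ValuationSubring ℂ, (p : ℂ) ∈ B.nonunits → ∀ g : ZMod p × ZMod p,
      H207.WH.ov ZMod.stdAddChar ψ (fun k => conj (ψ k)) g.1 g.2 ∈ B ∧
      H207.WH.rs B (H207.WH.ov ZMod.stdAddChar ψ (fun k => conj (ψ k)) g.1 g.2) = 1 := by
    intro B hB g
    apply H207.WH.cong B hp2 hB (ZMod.isPrimitive_stdAddChar p) (sic ψ hψ)
    intro v hv
    obtain ⟨M, hM, hMv⟩ := h v hv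
    refine ⟨M, fun g => ?_, hMv⟩
    obtain ⟨c, hc, hcg⟩ := hM g
    refine ⟨c, hc, mul_left_cancel₀ hs0 ?_⟩
    rw [← phase_eq, hcg, phase_eq]
    ring
  intro m hm0
  have hmap : m.map (phase ψ) = m.map (fun g : ZMod p × ZMod p =>
      ((√((p : ℝ) + 1) : ℝ) : ℂ) *
        H207.WH.ov ZMod.stdAddChar ψ (fun k => conj (ψ k)) g.1 g.2) := by
    congr 1
    ext g
    exact phase_eq ψ g
  constructor
  · intro hodd
    obtain ⟨y, hy, hyB⟩ := H207.RU.odd_prod (sqs p)
      (fun g : ZMod p × ZMod p => H207.WH.ov ZMod.stdAddChar ψ (fun k => conj (ψ k)) g.1 g.2) m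
      (fun B hB g _ => key B hB g) hodd
    have hy' : (m.map (phase ψ)).prod = ((√((p : ℝ) + 1) : ℝ) : ℂ) * y := by
      rw [← hy, hmap]
    refine ⟨fun hspec => ?_, fun F hF => ?_⟩
    · obtain ⟨n, hn, hn1⟩ := special_root (norm_prod ψ hψ m hm0) hspec
      rw [hy'] at hn1
      exact H207.RU.no_root hp (sqs p) hyB hn hn1
    · rw [hy'] at hF
      exact H207.RU.sqrt_mem hp (sqs p) hyB F hF
  · intro heven hspec
    obtain ⟨n, hn, hn1⟩ := special_root (norm_prod ψ hψ m hm0) hspec
    obtain ⟨B, hB, -, -⟩ := H207.RU.place hp (sqs p)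
    have h1 := H207.RU.even_prod (sqs p)
      (fun g : ZMod p × ZMod p => H207.WH.ov ZMod.stdAddChar ψ (fun k => conj (ψ k)) g.1 g.2) m
      (fun B hB g _ => key B hB g) heven B hB
    rw [← hmap] at h1
    exact H207.RU.pp_of B hB hn hn1 h1

/-- **Overlap phases of symmetric fiducials.** Let `p ≥ 5` be prime and let `ψ` be a Weyl-Heisenberg
SIC fiducial of dimension `p`.
(1) Suppose that no `v ≠ 0` is an eigenvector of all `M` which permute the normalised overlaps up to
`p`-th roots of unity. Then no normalised overlap is a root of unity or an algebraic integer of a CM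
field, and every field which contains one of them contains `√(p + 1)`. The same holds for the
products of an odd number of normalised overlaps, and the products of an even number which are roots
of unity have order a power of `p`.
(2) A unitary symmetry `U D_g U⁻¹ = c_g D_(M g)`, `U ψ ∈ ℂ ψ`, permutes the normalised overlaps in
this way; so the conclusion of (1) holds if `p ≡ 2 mod 3` and `ψ` has Zauner's symmetry. -/
theorem result (p : ℕ) [Fact p.Prime] (hp : 5 ≤ p) (ψ : EuclideanSpace ℂ (ZMod p))
    (hψ : IsFiducial ψ) :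
    ((∀ v : ZMod p × ZMod p, v ≠ 0 → ∃ M, PermutesPhases ψ M ∧ ∀ c : ZMod p, M v ≠ c • v) →
      PhaseProducts ψ) ∧
    (∀ M, HasSymmetry ψ M → PermutesPhases ψ M) ∧
    (p % 3 = 2 → HasSymmetry ψ (zauner p) → PhaseProducts ψ) := by
  have hp2 : p ≠ 2 := by omega
  refine ⟨products hp ψ hψ, permutes hp2 ψ hψ.1, fun h3 hz => ?_⟩
  apply products hp ψ hψ
  intro v hv
  exact ⟨zauner p, permutes hp2 ψ hψ.1 _ hz, fun c => H207.WH.zauner h3 v hv c⟩

end Pool.Agent.Results.MP_1c78a5_mp.SymmetricPhases
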